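import Pool.Agent.K1H79.Q3.StmA
import Pool.Agent.H393R2.DC.Primes

/-! # Q3-6: primes which are norms from `ℤ[ω]`  (helper58) -/

set_option autoImplicit false

namespace Pool.Agent.K1H58.Q3

open Pool.Agent.K1H79.Q3
open Finset Filter Topology

/-- a primitive cube root of unity modulo `p` -/
theorem exists_omega (p : ℕ) [Fact p.Prime] (h : (p : ZMod 3) = 1) :
    ∃ x : ZMod p, x ^ 2 + x + 1 = 0 := by
  classical
  have hp := (Fact.out : p.Prime)
  have h3 : 3 ∣ Fintype.card (ZMod p)ˣ := by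
    rw [ZMod.card_units_eq_totient, Nat.totient_prime hp]
    have h1 : ((p - 1 : ℕ) : ZMod 3) = 0 := by
      rw [Nat.cast_sub hp.one_lt.le, h, Nat.cast_one, sub_self]
    exact (ZMod.natCast_eq_zero_iff _ _).1 h1
  obtain ⟨u, hu⟩ := exists_prime_orderOf_dvd_card 3 h3
  refine ⟨(u : ZMod p), ?_⟩
  have hu3 : u ^ 3 = 1 := by rw [← hu]; exact pow_orderOf_eq_one u
  have hu1 : u ≠ 1 := by
    rintro rfl
    rw [orderOf_one] at hu
    omega
  have e3 : (u : ZMod p) ^ 3 = 1 := by
    have := congrArg (fun z : (ZMod p)ˣ => (z : ZMod p)) hu3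
    simpa using this
  have e1 : (u : ZMod p) - 1 ≠ 0 := by
    intro h0
    apply hu1
    ext
    rw [Units.val_one]
    exact sub_eq_zero.1 h0
  have e : ((u : ZMod p) - 1) * ((u : ZMod p) ^ 2 + u + 1) = 0 := by
    linear_combination e3
  rcases mul_eq_zero.1 e with h0 | h0
  · exact absurd h0 e1
  · exact h0

theorem exists_norm (p : ℕ) (hp : p.Prime) (h : (p : ZMod 3) = 1) : ∃ a : E, nm a = p := by
  have : Fact p.Prime := ⟨hp⟩
  obtain ⟨x0, hx0⟩ := exists_omega p h
  obtain ⟨x, rfl⟩ : ∃ x : ℤ, ((x : ℤ) : ZMod p) = x0 := ⟨_, ZMod.intCast_zmod_cast x0⟩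
  have hdvd : (p : ℤ) ∣ x ^ 2 + x + 1 := by
    rw [← ZMod.intCast_zmod_eq_zero_iff_dvd]
    push_cast
    exact hx0
  obtain ⟨k, hk⟩ := hdvd
  have hnp : nm (p : E) = p ^ 2 := by
    have h1 : ((nm (p : E) : ℕ) : ℤ) = (p : ℤ) ^ 2 := by
      rw [nm_cast]
      simp
    exact_mod_cast h1
  -- `p` is not irreducible
  have hni : ¬ Irreducible (p : E) := by
    intro hirr
    have hpr : Prime (p : E) := hirr.prime
    have hprod : (⟨x, -1⟩ : E) * ⟨x + 1, 1⟩ = ((p : E)) * (k : E) := by
      ext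
      · simp
        linear_combination hk
      · simp
    have hd : (p : E) ∣ (⟨x, -1⟩ : E) * ⟨x + 1, 1⟩ := ⟨_, hprod⟩
    have hp1 : (1 : ℤ) < p := by exact_mod_cast hp.one_lt
    rcases hpr.dvd_or_dvd hd with ⟨c, hc⟩ | ⟨c, hc⟩
    · have := congrArg QuadraticAlgebra.im hc
      simp at this
      have h2 : (p : ℤ) ∣ 1 := ⟨-c.im, by linear_combination -this⟩
      have := Int.le_of_dvd one_pos h2
      omega
    · have := congrArg QuadraticAlgebra.im hc
      simp at this
      have h2 : (p : ℤ) ∣ 1 := ⟨c.im, by linear_combination this⟩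
      have := Int.le_of_dvd one_pos h2
      omega
  have hnu : ¬ IsUnit (p : E) := by
    rw [isUnit_iff', hnp]
    have := hp.one_lt
    nlinarith
  rw [irreducible_iff] at hni
  push Not at hni
  obtain ⟨a, b, hab, ha, hb⟩ := hni hnu
  refine ⟨a, ?_⟩
  have h1 : nm a * nm b = p ^ 2 := by rw [← nm_mul, ← hab, hnp]
  rw [isUnit_iff'] at ha hb
  have h2 : nm a ∣ p ^ 2 := ⟨_, h1.symm⟩
  obtain ⟨i, hi, hi2⟩ := (Nat.dvd_prime_pow hp).1 h2
  interval_cases i
  · exact absurd hi2 (by simpa using ha)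
  · simpa using hi2
  · exfalso
    apply hb
    rw [hi2] at h1
    have : 0 < p ^ 2 := by have := hp.pos; positivity
    nlinarith

theorem omega_le (q : ℕ) (hq : 1 ≤ q) : (q.primeFactors.card : ℝ) * Real.log 2 ≤ Real.log q := by
  have h1 : 2 ^ q.primeFactors.card ≤ q := by
    calc 2 ^ q.primeFactors.card = ∏ _p ∈ q.primeFactors, 2 := by simp
      _ ≤ ∏ p ∈ q.primeFactors, p := Finset.prod_le_prod' fun p hp => (Nat.prime_of_mem_primeFactors hp).two_le
      _ ≤ q := Nat.le_of_dvd (by omega) (Nat.prod_primeFactors_dvd q)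
  have h2 : ((2 : ℝ)) ^ q.primeFactors.card ≤ q := by exact_mod_cast h1
  have h3 := Real.log_le_log (by positivity) h2
  rwa [Real.log_pow] at h3

theorem t_PRS : S_PRS := by
  intro ε hε
  obtain ⟨c, hc, N0, hN0⟩ := Pool.Agent.H393R2.DC.primes_lower 3 1 isUnit_one
  set K : ℝ := 1 / (ε * Real.log 2) with hK
  have hl2 : 0 < Real.log 2 := Real.log_pos one_lt_two
  -- the asymptotic inequality
  have hasy : ∀ᶠ x : ℝ in atTop, x ^ (1 - ε) + K * Real.log x ≤ c * x / Real.log x := by
    have t1 : Tendsto (fun x : ℝ => Real.log x / x ^ ε) atTop (𝓝 0) := by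
      have := isLittleO_log_rpow_atTop hε
      exact this.tendsto_div_nhds_zero
    have t2 : Tendsto (fun x : ℝ => K * (Real.log x ^ 2 / x)) atTop (𝓝 0) := by
      have h := (Real.isLittleO_pow_log_id_atTop (n := 2)).tendsto_div_nhds_zero
      have := h.const_mul K
      simpa using this
    have t3 := (t1.add t2).eventually (gt_mem_nhds (show (0 : ℝ) + 0 < c by linarith))
    filter_upwards [t3, eventually_gt_atTop 1] with x hx hx1
    have hx0 : 0 < x := by linarith
    have hlx : 0 < Real.log x := Real.log_pos hx1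
    rw [le_div_iff₀ hlx]
    have e1 : x ^ (1 - ε) = x / x ^ ε := by
      rw [Real.rpow_sub hx0, Real.rpow_one]
    have hxe : 0 < x ^ ε := Real.rpow_pos_of_pos hx0 _
    calc (x ^ (1 - ε) + K * Real.log x) * Real.log x
        = x * (Real.log x / x ^ ε + K * (Real.log x ^ 2 / x)) := by
          rw [e1]; field_simp
      _ ≤ x * c := mul_le_mul_of_nonneg_left hx.le hx0.le
      _ = c * x := mul_comm _ _
  obtain ⟨x0, hx0⟩ := eventually_atTop.1 hasy
  refine ⟨max (max x0 N0) 2, by positivity, fun q A hq hqA hCA => ?_⟩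
  have hA0 : x0 ≤ (A : ℝ) := le_trans (le_max_left _ _) (le_trans (le_max_left _ _) hCA)
  have hAN : N0 ≤ A := by
    have : (N0 : ℝ) ≤ A := le_trans (le_max_right _ _) (le_trans (le_max_left _ _) hCA)
    exact_mod_cast this
  have hA2 : (2 : ℝ) ≤ A := le_trans (le_max_right _ _) hCA
  have h1 := hN0 A hAN
  have h2 := hx0 A hA0
  set S := (range (A + 1)).filter (fun q : ℕ => q.Prime ∧ (q : ZMod 3) = 1) with hS
  refine ⟨S \ q.primeFactors, ?_, ?_⟩
  · intro p hp
    rw [Finset.mem_sdiff, hS, Finset.mem_filter, Finset.mem_range] at hp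
    obtain ⟨⟨hpA, hpp, hp3⟩, hpq⟩ := hp
    refine ⟨hpp, by omega, ?_, ?_, exists_norm p hpp hp3⟩
    · intro hd
      exact hpq (Nat.mem_primeFactors.2 ⟨hpp, hd, by omega⟩)
    · rintro rfl
      exact absurd hp3 (by decide)
  · have h3 : S.card ≤ (S \ q.primeFactors).card + q.primeFactors.card := by
      have := Finset.le_card_sdiff q.primeFactors S
      omega
    have h4 : (S.card : ℝ) ≤ ((S \ q.primeFactors).card : ℝ) + q.primeFactors.card := by exact_mod_cast h3
    have h5 : (q.primeFactors.card : ℝ) ≤ K * Real.log A := by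
      have e1 := omega_le q hq
      have hq0 : (0 : ℝ) < q := by exact_mod_cast hq
      have e2 : ε * Real.log q ≤ Real.log A := by
        have := Real.log_le_log (Real.rpow_pos_of_pos hq0 ε) hqA
        rwa [Real.log_rpow hq0] at this
      rw [hK, one_div, inv_mul_eq_div, le_div_iff₀ (by positivity)]
      calc (q.primeFactors.card : ℝ) * (ε * Real.log 2) = ε * (q.primeFactors.card * Real.log 2) := by ring
        _ ≤ ε * Real.log q := mul_le_mul_of_nonneg_left e1 hε.le
        _ ≤ Real.log A := e2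
    linarith

end Pool.Agent.K1H58.Q3
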